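import Pool.Agent.Q231.Sat6.Final

/-!
# MP_7874c9_co: `sat(n, C₄, C₆) = 0` for all large `n`

`Saturated` and `sat` are defined in `Pool/Agent/Q231/Sat6/Defs.lean`; cycles, containment and
numbers of copies are those of Mathlib.
-/

namespace Pool.Agent.Results.MP_7874c9_co.SatZero

open SimpleGraph Q231.Sat6

/-- For every sufficiently large `n` some `C₆`-saturated graph on `n` vertices contains no
4-cycle; hence `sat(n, C₄, C₆) = 0` for all sufficiently large `n`. -/
theorem result : ∃ n₀ : ℕ, ∀ n ≥ n₀,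
    (∃ G : SimpleGraph (Fin n), Saturated (cycleGraph 6) G ∧ (cycleGraph 4).Free G) ∧
      sat n (cycleGraph 4) (cycleGraph 6) = 0 := by
  obtain ⟨n₀, h⟩ := main
  refine ⟨n₀, fun n hn => ⟨h n hn, ?_⟩⟩
  obtain ⟨G, h1, h2⟩ := h n hn
  have : (0 : ℕ) ∈ {k | ∃ G : SimpleGraph (Fin n), Saturated (cycleGraph 6) G ∧
      G.copyCount (cycleGraph 4) = k} := ⟨G, h1, copyCount_eq_zero.2 h2⟩
  exact Nat.eq_zero_of_le_zero (Nat.sInf_le this)

end Pool.Agent.Results.MP_7874c9_co.SatZero
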